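import Mathlib

/-! Algebraic definitions: graded free modules, projective data, the dualising module. -/

set_option autoImplicit false

open MvPolynomial

namespace Pool.Agent.MP_1c689d_ag.K0

noncomputable section

/-- The polynomial ring in `m` variables. -/
abbrev P (m : ℕ) : Type := MvPolynomial (Fin m) ℂ

/-- The forms of degree `j` (zero for negative `j`). -/
def hz (k : ℕ) (j : ℤ) : Submodule ℂ (P k) :=
  if 0 ≤ j then homogeneousSubmodule (Fin k) ℂ j.toNat else ⊥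

/-- A graded `P m`-module that is free over the polynomial ring in the variables `yi`, with a finite
homogeneous basis of degrees `dg`; `co` gives the coordinates. -/
structure FB {m k : ℕ} (yi : Fin k → Fin m) (N : Type) [AddCommGroup N] [Module ℂ N]
    [Module (P m) N] where
  ι : Type
  [fin : Fintype ι]
  dg : ι → ℤ
  co : N ≃ₗ[ℂ] (ι → P k)
  co_y : ∀ (a : P k) (v : N) (i : ι), co ((rename yi a : P m) • v) i = a * co v i
  co_X : ∀ (l : Fin m) (j : ℤ) (v : N), (∀ i, co v i ∈ hz k (j - dg i)) →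
    ∀ i, co ((X l : P m) • v) i ∈ hz k (j + 1 - dg i)

attribute [instance] FB.fin

/-- The degree `j` part. -/
def FB.gr {m k : ℕ} {yi : Fin k → Fin m} {N : Type} [AddCommGroup N] [Module ℂ N]
    [Module (P m) N] (b : FB yi N) (j : ℤ) : Submodule ℂ N where
  carrier := {v | ∀ i, b.co v i ∈ hz k (j - b.dg i)}
  add_mem' := fun {v w} hv hw i => by
    rw [map_add]; exact add_mem (hv i) (hw i)
  zero_mem' := fun i => by rw [map_zero]; exact zero_mem _
  smul_mem' := fun t v hv i => by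
    rw [map_smul]; exact Submodule.smul_mem _ t (hv i)

/-- The value on `h` of the derivation with values `g l` on the variables. -/
def dv {m : ℕ} {N : Type} [AddCommGroup N] [Module (P m) N] (g : Fin m → N) (h : P m) : N :=
  ∑ l, (pderiv l h : P m) • g l

/-- The gradient. -/
def gd {m : ℕ} (h : P m) : Fin m → P m := fun l => pderiv l h

/-- The unit vectors. -/
def ue {m : ℕ} (l : Fin m) : Fin m → P m := Pi.single l 1

/-- Projective data: homogeneous equations `F`, whose ideal has a quotient ring that is graded free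
over the `k` variables `yi`; `c` is the codimension. -/
structure PD (m k c r : ℕ) where
  yi : Fin k → Fin m
  inj : Function.Injective yi
  eqv : Fin c ⊕ Fin k ≃ Fin m
  F : Fin r → P m
  dF : Fin r → ℕ
  Fh : ∀ j, (F j).IsHomogeneous (dF j)
  b : FB yi (P m ⧸ Ideal.span (Set.range F))
  one : (1 : P m ⧸ Ideal.span (Set.range F)) ∈ b.gr 0

namespace PD

variable {m k c r : ℕ} (Q : PD m k c r)

/-- The homogeneous ideal. -/
abbrev I : Ideal (P m) := Ideal.span (Set.range Q.F)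

/-- The determinant with rows the gradients of the equations `A` and the vectors `w`. -/
def jd (A : Fin c → Fin r) (w : Fin k → Fin m → P m) : P m :=
  (Matrix.of fun i j : Fin c ⊕ Fin k =>
    Sum.elim (fun a => gd (Q.F (A a))) w i (Q.eqv j)).det

/-- The maps `P / I → A` that are linear over `A = ℂ[y]`. -/
def OmS : Submodule ℂ (P m →ₗ[ℂ] P k) where
  carrier := {t | (∀ f ∈ Q.I, t f = 0) ∧ ∀ a f, t (rename Q.yi a * f) = a * t f}
  add_mem' := fun {s t} hs ht => ⟨fun f hf => by simp [hs.1 f hf, ht.1 f hf],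
    fun a f => by simp [hs.2 a f, ht.2 a f, mul_add]⟩
  zero_mem' := ⟨fun _ _ => rfl, fun _ _ => by simp⟩
  smul_mem' := fun s t ht => ⟨fun f hf => by simp [ht.1 f hf],
    fun a f => by simp [ht.2 a f]⟩

/-- The dualising module `Hom_A(P / I, A)`. -/
def Om : Type := ↥Q.OmS

instance : AddCommGroup Q.Om := inferInstanceAs (AddCommGroup ↥Q.OmS)

instance : Module ℂ Q.Om := inferInstanceAs (Module ℂ ↥Q.OmS)

/-- The underlying linear map. -/
def val (t : Q.Om) : P m →ₗ[ℂ] P k := Subtype.val (p := fun t => t ∈ Q.OmS) t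

theorem val_inj : Function.Injective Q.val := Subtype.val_injective

theorem val_I (t : Q.Om) {f : P m} (hf : f ∈ Q.I) : Q.val t f = 0 :=
  (Subtype.property (p := fun t => t ∈ Q.OmS) t).1 f hf

theorem val_y (t : Q.Om) (a : P k) (f : P m) : Q.val t (rename Q.yi a * f) = a * Q.val t f :=
  (Subtype.property (p := fun t => t ∈ Q.OmS) t).2 a f

@[simp] theorem val_add (s t : Q.Om) : Q.val (s + t) = Q.val s + Q.val t := rfl

@[simp] theorem val_zero : Q.val 0 = 0 := rfl

@[simp] theorem val_csmul (a : ℂ) (t : Q.Om) : Q.val (a • t) = a • Q.val t := rfl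

instance : SMul (P m) Q.Om :=
  ⟨fun h t => (⟨Q.val t ∘ₗ LinearMap.mulLeft ℂ h,
    fun f hf => Q.val_I t (Q.I.mul_mem_left h hf),
    fun a f => by
      change Q.val t (h * (rename Q.yi a * f)) = a * Q.val t (h * f)
      rw [mul_left_comm, Q.val_y]⟩ : ↥Q.OmS)⟩

@[simp] theorem val_smul (h : P m) (t : Q.Om) (f : P m) : Q.val (h • t) f = Q.val t (h * f) := rfl

theorem ext' {s t : Q.Om} (h : ∀ f, Q.val s f = Q.val t f) : s = t :=
  Q.val_inj (LinearMap.ext h)

instance : Module (P m) Q.Om where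
  one_smul t := Q.ext' fun f => by simp
  mul_smul a b t := Q.ext' fun f => by simp [mul_left_comm, mul_assoc]
  smul_zero a := Q.ext' fun f => by simp
  smul_add a s t := Q.ext' fun f => by simp
  add_smul a b t := Q.ext' fun f => by simp [add_mul]
  zero_smul t := Q.ext' fun f => by simp

instance : IsScalarTower ℂ (P m) Q.Om :=
  ⟨fun a h t => Q.ext' fun f => by simp⟩

/-- The degree `j` part of `Hom_A(P / I, A)(-k)`. -/
def og (j : ℤ) : Submodule ℂ Q.Om where
  carrier := {t | ∀ (i : ℕ) (f : P m), f.IsHomogeneous i → Q.val t f ∈ hz k (i + j - k)}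
  add_mem' := fun {s t} hs ht i f hf => add_mem (hs i f hf) (ht i f hf)
  zero_mem' := fun _ _ _ => zero_mem _
  smul_mem' := fun a t ht i f hf => Submodule.smul_mem _ a (ht i f hf)

/-- The points of the punctured cone. -/
def OnC (v : Fin m → ℂ) : Prop := v ≠ 0 ∧ ∀ j, eval v (Q.F j) = 0

/-- The point does not lie over one of the points `Pts` of the projective space of the `y`. -/
def Off (Pts : Finset (Fin k → ℂ)) (v : Fin m → ℂ) : Prop :=
  ∀ u ∈ Pts, ∀ t : ℂ, (fun i => v (Q.yi i)) ≠ t • u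

/-- The Jacobian criterion off the fibres over `Pts`. -/
def Sm0 (Pts : Finset (Fin k → ℂ)) : Prop :=
  ∀ v, Q.OnC v → Q.Off Pts v → ∃ (A : Fin c → Fin r) (l : Fin k → Fin m),
    eval v (Q.jd A fun i => ue (l i)) ≠ 0

/-- Every degree zero derivation of `P / I` is a multiple of the Euler derivation. -/
def H0 : Prop :=
  ∀ g : Fin m → P m, (∀ l, (g l).IsHomogeneous 1) → (∀ j, dv g (Q.F j) ∈ Q.I) →
    ∃ t : ℂ, ∀ l, g l - C t * X l ∈ Q.I

/-- Every degree zero derivation of `P / I` into the dualising module vanishes. -/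
def H2 : Prop :=
  ∀ g : Fin m → Q.Om, (∀ l, g l ∈ Q.og 1) → (∀ j, dv g (Q.F j) = 0) → g = 0

end PD

/-- The data of Dedekind and Tate: the maps `ι A` and the regular top forms `κ`. -/
structure DT {m n c r : ℕ} (Q : PD m (n + 1) c r) where
  ι : (Fin c → Fin r) → Q.Om →ₗ[P m] (P m ⧸ Q.I)
  κ : (Fin (n + 1) → Fin m) → Q.Om
  ι_κ : ∀ A l, ι A (κ l) = Ideal.Quotient.mk Q.I (Q.jd A fun i => ue (l i))
  ι_sym : ∀ A (s t : Q.Om) (f g : P m), Ideal.Quotient.mk Q.I f = ι A s →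
    Ideal.Quotient.mk Q.I g = ι A t → f • t = g • s
  ι_deg : ∀ A, ∃ s : ℤ, ∀ j, ∀ t ∈ Q.og j, ι A t ∈ Q.b.gr (j + s)
  κ_deg : ∀ l, κ l ∈ Q.og (n + 1 : ℕ)
  κ_F : ∀ j (l : Fin n → Fin m), ∑ a, (pderiv a (Q.F j) : P m) • κ (Fin.cons a l) = 0

variable {m c r : ℕ}

/-- `σ` cuts out a smooth surface that misses the fibres over `Pts` and over `(1:0:0:0)`. -/
structure Good (Q : PD m 4 c r) (Pts : Finset (Fin 4 → ℂ)) (σ : P m) (ν : ℕ) : Prop where
  hom : σ.IsHomogeneous ν
  pos : 0 < ν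
  off : ∀ v, Q.OnC v → eval v σ = 0 → Q.Off Pts v
  ax : ∀ v, Q.OnC v → eval v σ = 0 → ∃ i : Fin 3, v (Q.yi i.succ) ≠ 0
  sm : ∀ v, Q.OnC v → eval v σ = 0 → ∃ (A : Fin c → Fin r) (l : Fin 3 → Fin m),
    eval v (Q.jd A (Fin.cons (gd σ) fun i => ue (l i))) ≠ 0

/-- Good surfaces carry no holomorphic one-form. -/
def Q1 (Q : PD m 4 c r) (Pts : Finset (Fin 4 → ℂ)) : Prop :=
  ∀ (e : ℕ) (s : P m), Good Q Pts s e → ∀ ζ : Fin m → Q.Om, (∀ l, ζ l ∈ Q.og (e + 1)) →
    (∀ j, ∃ w : Q.Om, dv ζ (Q.F j) = s • w) → (∃ w : Q.Om, dv ζ s = s • w) →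
    ∀ a l, ∃ w : Q.Om, (X l : P m) • ζ a - (X a : P m) • ζ l = s • w

/-- The extended Jacobian space. -/
def JExt (Q : PD m 4 c r) (z : Fin r → Q.Om) (σ : P m) (ν : ℕ) (τ : Q.Om) (b : P m) : Prop :=
  ∃ (g : Fin m → Q.Om) (ρ : Fin r → Q.Om) (τ' : Q.Om), (∀ l, g l ∈ Q.og (ν + 1)) ∧
    (∀ j, ρ j ∈ Q.og (Q.dF j)) ∧ τ' ∈ Q.og ν ∧ (∀ j, dv g (Q.F j) = b • z j + σ • ρ j) ∧
    τ = dv g σ + σ • τ'

/-- A non-degenerate pair of functionals that kills the extended Jacobian space. -/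
structure NDeg (Q : PD m 4 c r) (z : Fin r → Q.Om) (σ : P m) (ν : ℕ) (lam : Q.Om →ₗ[ℂ] ℂ)
    (mu : P m →ₗ[ℂ] ℂ) : Prop where
  kill : ∀ τ (b : P m), b.IsHomogeneous ν → JExt Q z σ ν τ b → lam τ + mu b = 0
  nd : ∀ a ∈ Q.og ν, ∀ t : ℂ, (∀ b : P m, b.IsHomogeneous ν → lam (b • a) + t * mu b = 0) →
    a = 0 ∧ t = 0

/-- The numerical hypotheses: `p_g = 0` and `K · H² = 0`. -/
structure Num (Q : PD m 4 c r) : Prop where
  prime : Q.I.IsPrime
  ge : ∀ i, 0 ≤ Q.b.dg i
  le : ∀ i, Q.b.dg i ≤ 3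
  sum : ∑ i, Q.b.dg i = 2 * Fintype.card Q.b.ι

end

end Pool.Agent.MP_1c689d_ag.K0
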