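import Pool.Agent.MP_1c689d_ag.Defs
import Pool.Agent.MP_1c689d_ag.K0.ADefs

/-! The complex points of a projective variety and birational morphisms. -/

set_option autoImplicit false

open MvPolynomial

namespace Pool.Agent.MP_1c689d_ag.K0

noncomputable section

namespace PD

variable {m k c r : ℕ} (Q : PD m k c r)

/-- The punctured cone. -/
abbrev Cn : Type := {v : Fin m → ℂ // Q.OnC v}

/-- Two points of the cone are identified if they span the same line. -/
def rel : Setoid Q.Cn := Setoid.ker fun v : Q.Cn => Projectivization.mk ℂ v.1 v.2.1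

/-- The complex points with the analytic (quotient) topology. -/
abbrev Pt : Type := Quotient Q.rel

/-- The Zariski open set `f ≠ 0`. -/
def Zo (f : P m) : Set Q.Pt := {y | ∃ v : Q.Cn, Quotient.mk Q.rel v = y ∧ eval v.1 f ≠ 0}

/-- On the part `W` of the cone the map `π` to projective space is regular: near every point it is
given by forms of one degree. -/
def Rg (W : (Fin m → ℂ) → Prop) {N : ℕ} (π : (Fin m → ℂ) → Fin N → ℂ) : Prop :=
  ∀ v, Q.OnC v → W v → ∃ (d : ℕ) (p : Fin N → P m), (∀ l, (p l).IsHomogeneous d) ∧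
    (fun l => eval v (p l)) ≠ 0 ∧
    ∀ w, Q.OnC w → W w → ∃ t : ℂ, (fun l => eval w (p l)) = t • π w

end PD

/-- `π` is a morphism from the variety of `Q'` to the variety of `Q` that is an isomorphism, with
inverse `ϱ`, off the fibres over `Pts`. -/
structure Bir {N c' r' m c r : ℕ} (Q' : PD N 4 c' r') (Q : PD m 4 c r) (Pts : Finset (Fin 4 → ℂ))
    (π : (Fin N → ℂ) → Fin m → ℂ) (ϱ : (Fin m → ℂ) → Fin N → ℂ) : Prop where
  onc : ∀ v, Q'.OnC v → Q.OnC (π v)
  onc' : ∀ w, Q.OnC w → Q.Off Pts w → Q'.OnC (ϱ w)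
  reg : Q'.Rg (fun _ => True) π
  reg' : Q.Rg (Q.Off Pts) ϱ
  left : ∀ v, Q'.OnC v → Q.Off Pts (π v) → ∃ t : ℂ, ϱ (π v) = t • v
  right : ∀ w, Q.OnC w → Q.Off Pts w → ∃ t : ℂ, π (ϱ w) = t • w

end

end Pool.Agent.MP_1c689d_ag.K0
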